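import Pool.Agent.QFP.StEq
import Pool.Agent.QFP.A1
import Pool.Agent.QFP.A3

/-!
# QWEP of amalgamated free powers is equivalent to inner averaging

All definitions are in `Pool/Agent/QFP/St.lean`. QWEP is expressed by Connes embeddability
(`ConnesEmbeddable`: matricial microstates), which is equivalent to it for finite von Neumann algebras
with a faithful normal tracial state (Kirchberg).
-/

set_option autoImplicit false

namespace Pool.Agent.Results.MP_f0269b_an.Characterization

open Pool.Agent.QFP Pool.Agent.QFP.St

universe u v w

/-- Let `B ⊆ A` be finite von Neumann algebras, `A` with a faithful normal tracial state.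
If `(A, B)` has inner averaging then every amalgamated free power `∗_B A` (any index set `J`) is
Connes embeddable. Conversely, if an amalgamated free power of `A` over `B` with infinite index set is
Connes embeddable, then `(A, B)` has inner averaging. -/
theorem result {H : Type u} [NormedAddCommGroup H] [InnerProductSpace ℂ H] [CompleteSpace H]
    (A : TracialVN H) (B : VonNeumannAlgebra H) (hBA : ∀ x ∈ B, x ∈ A.N) :
    (St.InnerAveraging A B →
      ∀ {K : Type v} [NormedAddCommGroup K] [InnerProductSpace ℂ K] [CompleteSpace K]
        (M : TracialVN K) {J : Type w} (ι : J → (H →L[ℂ] H) → (K →L[ℂ] K)),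
        IsAmalgamatedPower A B M ι → ConnesEmbeddable M) ∧
    (∀ {K : Type v} [NormedAddCommGroup K] [InnerProductSpace ℂ K] [CompleteSpace K]
      (M : TracialVN K) {J : Type w} [Infinite J] (ι : J → (H →L[ℂ] H) → (K →L[ℂ] K)),
      IsAmalgamatedPower A B M ι → ConnesEmbeddable M → St.InnerAveraging A B) := by
  refine ⟨?_, ?_⟩
  · intro hI K _ _ _ M J ι hι
    exact (connesEmb_iff M).2 (connesEmb_of_innerAveraging hBA (stLin_isTrace A)
      ((innerAveraging_iff hBA).1 hI) (stLin_isTrace M) (isFreePower_of_st hBA hι))
  · intro K _ _ _ M J _ ι hι hM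
    exact (innerAveraging_iff hBA).2 (innerAveraging_of_connesEmb (stLin_isTrace A)
      (stLin_isTrace M) (isFreePower_of_st hBA hι) ((connesEmb_iff M).1 hM))

end Pool.Agent.Results.MP_f0269b_an.Characterization
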