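import Pool.Agent.QFP.StEq
import Pool.Agent.QFP.A1
import Pool.Agent.QFD.M8
import Pool.Agent.QFD.D1b

/-!
# QWEP of amalgamated free powers and elements determined by a subalgebra

The definitions `TracialVN`, `ConnesEmbeddable`, `IsTraceHom`, `Orthogonal`, `IsAmalgamatedPower` are in
`Pool/Agent/QFP/St.lean`. QWEP is expressed by Connes embeddability (`ConnesEmbeddable`: matricial
microstates), which is equivalent to it for finite von Neumann algebras with a faithful normal tracial
state (Kirchberg).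
-/

set_option autoImplicit false

namespace Pool.Agent.Results.MP_f0269b_an.DeterminedElements

open Pool.Agent.QFP Pool.Agent.QFP.St Pool.Agent.QFD

universe u v w

/-- `x ∈ M` is determined by `S ⊆ M`: two trace preserving unital ⋆-homomorphisms of `M` into a Connes
embeddable finite von Neumann algebra `P` which agree on `S` also agree at `x`. -/
def Determined {K : Type u} [NormedAddCommGroup K] [InnerProductSpace ℂ K] [CompleteSpace K]
    (M : TracialVN K) (S : Set (K →L[ℂ] K)) (x : K →L[ℂ] K) : Prop :=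
  ∀ (L : Type v) [NormedAddCommGroup L] [InnerProductSpace ℂ L] [CompleteSpace L]
    (P : TracialVN L) (ρ ρ' : (K →L[ℂ] K) → (L →L[ℂ] L)), ConnesEmbeddable P →
    IsTraceHom M P ρ → IsTraceHom M P ρ' → (∀ b ∈ S, ρ b = ρ' b) → ρ x = ρ' x

/-- The 2-norm `‖x‖₂ = τ(x*x)^(1/2)` of `(M, τ)`. -/
noncomputable def vnorm2 {K : Type u} [NormedAddCommGroup K] [InnerProductSpace ℂ K]
    [CompleteSpace K] (M : TracialVN K) (x : K →L[ℂ] K) : ℝ :=
  Real.sqrt (M.tr (star x * x)).re

/-- Let `B ⊆ A` be finite von Neumann algebras, `A` with a faithful normal tracial state.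

If `A` is Connes embeddable, then either all amalgamated free powers of `A` over `B` are Connes
embeddable, or there are a Connes embeddable `M` generated by a sequence of copies `θ n (A)` of `A` which
agree on `B`, an element `a ∈ A` with `E_B(a) = 0`, and `x ≠ 0` in `M`, orthogonal to `θ 0 (B)`, which is in
the 2-norm closure of the averages of the `θ n (a)` and which is determined by `θ 0 (B)` in `M`.

Conversely, if an amalgamated free power of `A` over `B` with at least two factors is Connes embeddable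
then all elements of `A` determined by `B` are in `B`. -/
theorem result {H : Type u} [NormedAddCommGroup H] [InnerProductSpace ℂ H] [CompleteSpace H]
    (A : TracialVN H) (B : VonNeumannAlgebra H) (hBA : ∀ x ∈ B, x ∈ A.N) :
    (ConnesEmbeddable A →
      (∀ {K : Type v} [NormedAddCommGroup K] [InnerProductSpace ℂ K] [CompleteSpace K]
        (M : TracialVN K) {J : Type w} (ι : J → (H →L[ℂ] H) → (K →L[ℂ] K)),
        IsAmalgamatedPower A B M ι → ConnesEmbeddable M) ∨
      ∃ (K : Type u) (_ : NormedAddCommGroup K) (_ : InnerProductSpace ℂ K) (_ : CompleteSpace K)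
        (M : TracialVN K) (θ : ℕ → (H →L[ℂ] H) → (K →L[ℂ] K)) (a : H →L[ℂ] H) (x : K →L[ℂ] K),
        ConnesEmbeddable M ∧ (∀ n, IsTraceHom A M (θ n)) ∧ (∀ m n, ∀ b ∈ B, θ m b = θ n b) ∧
        (M.N : Set (K →L[ℂ] K)) =
          Set.centralizer (Set.centralizer {y | ∃ n, ∃ c ∈ A.N, y = θ n c}) ∧
        a ∈ A.N ∧ Orthogonal A B a ∧ x ∈ M.N ∧ x ≠ 0 ∧ (∀ b ∈ B, M.tr (x * θ 0 b) = 0) ∧
        (∀ ε : ℝ, 0 < ε → ∃ (N : ℕ) (s : Fin N → ℕ), 0 < N ∧
          vnorm2 M ((N : ℂ)⁻¹ • ∑ j, θ (s j) a - x) < ε) ∧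
        Determined.{u, v} M (θ 0 '' B) x) ∧
    (∀ {K : Type v} [NormedAddCommGroup K] [InnerProductSpace ℂ K] [CompleteSpace K]
      (M : TracialVN K) {J : Type w} (ι : J → (H →L[ℂ] H) → (K →L[ℂ] K)) (i j : J), i ≠ j →
      IsAmalgamatedPower A B M ι → ConnesEmbeddable M →
      ∀ x ∈ A.N, Determined.{u, v} A B x → x ∈ B) := by
  refine ⟨?_, ?_⟩
  · intro hA
    by_cases hsep : HSepN A.N B (stLin A)
    · left
      intro K _ _ _ M J ι hι
      exact (connesEmb_iff M).2 (connesEmb_of_innerAveraging hBA (stLin_isTrace A)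
        (innerAveraging_of_sepN (stLin_isTrace A) ((connesEmb_iff A).1 hA) hsep) (stLin_isTrace M)
        (isFreePower_of_st hBA hι))
    · right
      unfold HSepN at hsep
      push Not at hsep
      obtain ⟨K, i1, i2, i3, M, θ, a, x, hobs, hx⟩ := hsep
      have hsum : ∀ (N : ℕ) (s : Fin N → ℕ),
          (((N : ℂ)⁻¹ • ∑ j, θ (s j) a - x : Alg M.N) : K →L[ℂ] K) =
            (N : ℂ)⁻¹ • ∑ j, ext (θ (s j)) (a : H →L[ℂ] H) - (x : K →L[ℂ] K) := by
        intro N s
        have h1 : ((∑ j, θ (s j) a : Alg M.N) : K →L[ℂ] K) = ∑ j, ext (θ (s j)) (a : H →L[ℂ] H) := by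
          rw [AddSubmonoidClass.coe_finsetSum]
          exact Finset.sum_congr rfl fun j _ => (ext_apply (θ (s j)) a).symm
        rw [← h1]
        rfl
      refine ⟨K, i1, i2, i3, M, fun n => ext (θ n), (a : H →L[ℂ] H), (x : K →L[ℂ] K),
        (connesEmb_iff M).2 hobs.emb, fun n => isTraceHom_ext (θ n) fun c => hobs.trace_eq n c, ?_,
        ?_, a.2, (perp_iff hBA a).2 hobs.perp, x.2, ?_, ?_, ?_, ?_⟩
      · intro m n b hb
        have h1 := hobs.agree m n ⟨b, hBA b hb⟩ hb
        show ext (θ m) b = ext (θ n) b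
        rw [ext_mk (θ m) (hBA b hb), ext_mk (θ n) (hBA b hb), h1]
      · rw [hobs.generates]
        congr 2
        ext z
        constructor
        · rintro ⟨n, c, rfl⟩
          exact ⟨n, c, c.2, (ext_apply (θ n) c).symm⟩
        · rintro ⟨n, c, hc, rfl⟩
          exact ⟨n, ⟨c, hc⟩, ext_mk (θ n) hc⟩
      · intro h0
        exact hobs.ne_zero (Subtype.ext h0)
      · intro b hb
        have hMt := (stLin_isTrace M).trAlg
        have h1 : ∀ ε : ℝ, 0 < ε → ‖stLin M (x * θ 0 ⟨b, hBA b hb⟩)‖ ≤ ε *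
            n2 (stLin M) (θ 0 ⟨b, hBA b hb⟩) := by
          intro ε hε
          obtain ⟨N, hN, s, hs⟩ := hobs.approx ε hε
          have h2 : stLin M (((N : ℂ)⁻¹ • ∑ j, θ (s j) a) * θ 0 ⟨b, hBA b hb⟩) = 0 := by
            rw [smul_mul_assoc, map_smul, Finset.sum_mul, map_sum]
            have h3 : ∀ j ∈ (Finset.univ : Finset (Fin N)),
                stLin M (θ (s j) a * θ 0 ⟨b, hBA b hb⟩) = 0 := by
              intro j _
              rw [hobs.agree 0 (s j) ⟨b, hBA b hb⟩ hb, ← map_mul, hobs.trace_eq]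
              exact hobs.perp ⟨b, hBA b hb⟩ hb
            rw [Finset.sum_eq_zero h3, smul_zero]
          have h4 : stLin M (x * θ 0 ⟨b, hBA b hb⟩) = stLin M (star (star
              (x - (N : ℂ)⁻¹ • ∑ j, θ (s j) a)) * θ 0 ⟨b, hBA b hb⟩) := by
            rw [star_star, sub_mul, map_sub, h2, sub_zero]
          rw [h4]
          refine (hMt.cs _ _).trans ?_
          rw [hMt.n2_star, hMt.n2_sub_comm]
          exact mul_le_mul_of_nonneg_right hs.le (n2_nonneg _ _)
        have h5 : stLin M (x * θ 0 ⟨b, hBA b hb⟩) = 0 := by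
          by_contra hne
          have hpos : 0 < ‖stLin M (x * θ 0 ⟨b, hBA b hb⟩)‖ := norm_pos_iff.2 hne
          have hC := n2_nonneg (stLin M) (θ 0 ⟨b, hBA b hb⟩)
          have h6 := h1 (‖stLin M (x * θ 0 ⟨b, hBA b hb⟩)‖ /
            (2 * (n2 (stLin M) (θ 0 ⟨b, hBA b hb⟩) + 1))) (by positivity)
          rw [div_mul_eq_mul_div, le_div_iff₀ (by positivity)] at h6
          nlinarith
        show M.tr ((x : K →L[ℂ] K) * ext (θ 0) b) = 0
        rw [ext_mk (θ 0) (hBA b hb)]
        exact h5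
      · intro ε hε
        obtain ⟨N, hN, s, hs⟩ := hobs.approx ε hε
        refine ⟨N, s, hN, ?_⟩
        have h1 : vnorm2 M ((N : ℂ)⁻¹ • ∑ j, ext (θ (s j)) (a : H →L[ℂ] H) - (x : K →L[ℂ] K)) =
            n2 (stLin M) ((N : ℂ)⁻¹ • ∑ j, θ (s j) a - x) := by
          rw [← hsum]
          rfl
        exact lt_of_eq_of_lt h1 hs
      · intro L _ _ _ P ρ ρ' hP hρ hρ' hS
        by_contra hne
        have hne' : stHom hρ x ≠ stHom hρ' x := by
          intro h
          exact hne (congrArg Subtype.val h)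
        obtain ⟨e, he, hsepx⟩ := sepBy_of_homs (τ := stLin M) (φ := stLin P) (stLin_isTrace P)
          ((connesEmb_iff P).1 hP) (stHom hρ) (stHom hρ') (fun c => hρ.trace_eq c c.2)
          (fun c => hρ'.trace_eq c c.2)
          (S := {y | ∃ b : Alg A.N, (b : H →L[ℂ] H) ∈ B ∧ y = θ 0 b}) (by
          rintro y ⟨b, hb, rfl⟩
          refine Subtype.ext (hS _ ⟨(b : H →L[ℂ] H), hb, ?_⟩)
          exact ext_apply (θ 0) b) hne'
        exact hx e he hsepx
  · intro K _ _ _ M J ι i j hij hι hM x hx hdet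
    by_contra hxB
    have h1 : ι i x = ι j x := hdet K M (ι i) (ι j) hM (hι.hom i) (hι.hom j)
      fun b hb => hι.agree i j b hb
    -- the free power separates the elements outside `B`
    have hfp := isFreePower_of_st hBA hι
    have hτ := stLin_isTrace A
    obtain ⟨b, hb, hp⟩ := exists_condexp hBA hτ (⟨x, hx⟩ : Alg A.N)
    obtain ⟨p, hpdef⟩ : ∃ p : Alg A.N, p = ⟨x, hx⟩ - b := ⟨_, rfl⟩
    rw [← hpdef] at hp
    have hp0 : p ≠ 0 := by
      intro h
      rw [h] at hpdef
      have h2 : (⟨x, hx⟩ : Alg A.N) = b := sub_eq_zero.1 hpdef.symm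
      have h3 : x = (b : H →L[ℂ] H) := congrArg Subtype.val h2
      rw [h3] at hxB
      exact hxB hb
    have h1' : stHom (hι.hom i) ⟨x, hx⟩ = stHom (hι.hom j) ⟨x, hx⟩ := Subtype.ext h1
    have hpij : stHom (hι.hom i) p = stHom (hι.hom j) p := by
      rw [hpdef, map_sub, map_sub, h1']
      congr 1
      exact hfp.agree i j b hb
    have h2 := hfp.free [(i, star p), (j, p)] (by simp) (by simp [hij]) (by
      intro q hq
      simp only [List.mem_cons, List.not_mem_nil, or_false] at hq
      rcases hq with rfl | rfl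
      · exact Perp.star hτ hp
      · exact hp)
    have h3 : stLin M (stHom (hι.hom i) (star p) * stHom (hι.hom j) p) = 0 := by simpa using h2
    rw [← hpij, ← map_mul] at h3
    have h4 : stLin A (star p * p) = 0 := by
      rw [← hfp.trace_eq i]
      exact h3
    exact hp0 (hτ.faithful p h4)

end Pool.Agent.Results.MP_f0269b_an.DeterminedElements
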