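import Pool.Agent.QFP.StEq
import Pool.Agent.QFP.A1
import Pool.Agent.QFP.F1

/-!
# QWEP of amalgamated free products over fixed point algebras

All definitions are in `Pool/Agent/QFP/St.lean`. QWEP is expressed by Connes embeddability
(`ConnesEmbeddable`: matricial microstates), which is equivalent to it for finite von Neumann algebras
with a faithful normal tracial state (Kirchberg).
-/

set_option autoImplicit false

namespace Pool.Agent.Results.MP_f0269b_an.FixedPointAlgebras

open Pool.Agent.QFP Pool.Agent.QFP.St

universe u v w x y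

/-- Let `B ⊆ A` be finite von Neumann algebras, `A` with a faithful normal tracial state, and `M` an
amalgamated free power of `A` over `B` (any index set `J`; `J = Fin 2` is `∗_B A`).

Suppose `A` embeds by a trace preserving `θ` in a Connes embeddable `P` with a trace preserving
action `σ` of a group `G` (no continuity) such that `θ(B)` is fixed and `τ_P(θ(a) c) = 0` for all
fixed `c` and all `a ∈ A` with `E_B(a) = 0` (the fixed point algebra of `σ` and `θ(A)` form a commuting
square over `θ(B)`). Then `M` is Connes embeddable.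

For `P = A`, `θ = id` the hypothesis is that `B` is the fixed point algebra of a group of trace
preserving automorphisms of the Connes embeddable `A`; for instance (inner automorphisms given by the
unitaries of `B' ∩ A`) every `B` with `B = (B' ∩ A)' ∩ A`. -/
theorem result {H : Type u} [NormedAddCommGroup H] [InnerProductSpace ℂ H] [CompleteSpace H]
    (A : TracialVN H) (B : VonNeumannAlgebra H) (hBA : ∀ x ∈ B, x ∈ A.N)
    {K : Type v} [NormedAddCommGroup K] [InnerProductSpace ℂ K] [CompleteSpace K]
    (M : TracialVN K) {J : Type w} (ι : J → (H →L[ℂ] H) → (K →L[ℂ] K))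
    (hι : IsAmalgamatedPower A B M ι)
    {L : Type x} [NormedAddCommGroup L] [InnerProductSpace ℂ L] [CompleteSpace L]
    (P : TracialVN L) (hP : ConnesEmbeddable P)
    (θ : (H →L[ℂ] H) → (L →L[ℂ] L)) (hθ : IsTraceHom A P θ)
    {G : Type y} [Group G] (σ : G → (L →L[ℂ] L) → (L →L[ℂ] L)) (hσ : ∀ g, IsTraceHom P P (σ g))
    (hσ1 : ∀ c ∈ P.N, σ 1 c = c) (hσm : ∀ g h, ∀ c ∈ P.N, σ (g * h) c = σ g (σ h c))
    (hB : ∀ b ∈ B, ∀ g, σ g (θ b) = θ b)
    (hc : ∀ a ∈ A.N, Orthogonal A B a → ∀ c ∈ P.N, (∀ g, σ g c = c) → P.tr (θ a * c) = 0) :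
    ConnesEmbeddable M := by
  refine (connesEmb_iff M).2 (connesEmb_of_innerAveraging hBA (stLin_isTrace A)
    (innerAveraging_of_fixed (stLin_isTrace A) (stLin_isTrace P) ((connesEmb_iff P).1 hP)
      (stHom hθ) (fun a => hθ.trace_eq a a.2) (fun g => stHom (hσ g))
      (fun c => Subtype.ext (hσ1 c c.2)) (fun g h c => Subtype.ext (hσm g h c c.2))
      (fun g c => (hσ g).trace_eq c c.2) (fun b hb g => Subtype.ext (hB b hb g)) ?_)
    (stLin_isTrace M) (isFreePower_of_st hBA hι))
  intro a ha c hc'
  exact hc a a.2 ((perp_iff hBA a).2 ha) c c.2 fun g => congrArg Subtype.val (hc' g)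

end Pool.Agent.Results.MP_f0269b_an.FixedPointAlgebras
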