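import Pool.Agent.QFP.StEq
import Pool.Agent.QFJ.Grad

/-!
# QWEP of amalgamated free products of graded algebras

The definitions concerning von Neumann algebras (`TracialVN`, `ConnesEmbeddable`, `Orthogonal`,
`IsAmalgamatedPower`) are in `Pool/Agent/QFP/St.lean`. QWEP is expressed by Connes embeddability
(`ConnesEmbeddable`: matricial microstates), which is equivalent to it for finite von Neumann
algebras with a faithful normal tracial state (Kirchberg).
-/

set_option autoImplicit false

namespace Pool.Agent.Results.MP_f0269b_an.GradedAlgebras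

open Pool.Agent.QFP Pool.Agent.QFP.St Pool.Agent.QFJ

universe u v w y

/-- `A` is graded by the group `G`, with the von Neumann algebra `N` as component of degree `1`:
there are subspaces `V g ⊆ A`, `g ∈ G`, with `V 1 = N`, `V g V h ⊆ V (g h)`, `(V g)* ⊆ V g⁻¹`,
`τ = 0` on `V g` for `g ≠ 1`, which together generate `A` as a von Neumann algebra. Examples:
cocycle crossed products `A = N ⋊ G` by trace preserving automorphisms, `V g = N (u g)`; group
algebras `L(E)`, `E → G` a surjective homomorphism; `L(R)` for a treeable equivalence relation `R`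
(`G` a free group which acts by the reduced words in partial isomorphisms of a treeing,
`N = L^∞`). -/
structure IsGraded {H : Type u} [NormedAddCommGroup H] [InnerProductSpace ℂ H] [CompleteSpace H]
    (A : TracialVN H) (N : VonNeumannAlgebra H) {G : Type y} [Group G]
    (V : G → Submodule ℂ (H →L[ℂ] H)) : Prop where
  mem : ∀ g, ∀ a ∈ V g, a ∈ A.N
  one_iff : ∀ a, a ∈ V 1 ↔ a ∈ N
  mul_mem : ∀ g h, ∀ a ∈ V g, ∀ b ∈ V h, a * b ∈ V (g * h)
  star_mem : ∀ g, ∀ a ∈ V g, star a ∈ V g⁻¹
  trace : ∀ g, g ≠ 1 → ∀ a ∈ V g, A.tr a = 0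
  generates : (A.N : Set (H →L[ℂ] H)) ⊆ Set.centralizer (Set.centralizer {a | ∃ g, a ∈ V g})

/-- For every finite `T ⊆ G` and `δ > 0` there are a free subgroup `L` of `G` and a finite nonempty set
`Φ` of cosets of `L` with `|{q ∈ Φ : g q ∉ Φ}| ≤ δ |Φ|` for all `g ∈ T`. This holds for free groups
(`L = G`), amenable groups (`L = 1`), for groups with a co-amenable free subgroup (for instance
extensions of free groups by amenable groups, free products of amenable groups) and for directed
unions of such groups. -/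
def FreeFolner (G : Type y) [Group G] : Prop :=
  ∀ (T : Finset G) (δ : ℝ), 0 < δ → ∃ L : Subgroup G, IsFreeGroup L ∧
    ∃ Φ : Finset (G ⧸ L), Φ.Nonempty ∧
      ∀ g ∈ T, ({q : G ⧸ L | q ∈ Φ ∧ g • q ∉ Φ}.ncard : ℝ) ≤ δ * Φ.card

theorem FreeFolner.of_free (G : Type y) [Group G] [IsFreeGroup G] : FreeFolner G := by
  intro T δ hδ
  refine ⟨⊤, IsFreeGroup.ofMulEquiv (G := G) Subgroup.topEquiv.symm,
    {((1 : G) : G ⧸ (⊤ : Subgroup G))}, Finset.singleton_nonempty _, fun g _ => ?_⟩
  have h1 : {q : G ⧸ (⊤ : Subgroup G) | q ∈ ({((1 : G) : G ⧸ (⊤ : Subgroup G))} : Finset _) ∧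
      g • q ∉ ({((1 : G) : G ⧸ (⊤ : Subgroup G))} : Finset _)} = ∅ := by
    have h2 : Subsingleton (G ⧸ (⊤ : Subgroup G)) := QuotientGroup.subsingleton_quotient_top
    ext q
    simp only [Set.mem_ofPred_eq, Set.mem_empty_iff_false, iff_false, not_and, not_not]
    intro _
    rw [Finset.mem_singleton]
    exact Subsingleton.elim _ _
  rw [h1, Set.ncard_empty, Nat.cast_zero]
  positivity

/-- amenable groups are `FreeFolner` -/
theorem FreeFolner.of_folner (G : Type y) [Group G]
    (h : ∀ (T : Finset G) (δ : ℝ), 0 < δ → ∃ Φ : Finset G, Φ.Nonempty ∧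
      ∀ g ∈ T, ({x | x ∈ Φ ∧ g * x ∉ Φ}.ncard : ℝ) ≤ δ * Φ.card) : FreeFolner G := by
  classical
  intro T δ hδ
  obtain ⟨Φ, hΦ, hT⟩ := h T δ hδ
  let q : G → G ⧸ (⊥ : Subgroup G) := fun x => (x : G ⧸ (⊥ : Subgroup G))
  have hq : Function.Injective q := by
    intro x y hxy
    have h1 := QuotientGroup.eq.1 hxy
    rw [Subgroup.mem_bot] at h1
    exact (inv_mul_eq_one.1 h1)
  refine ⟨⊥, ?_, Φ.image q, hΦ.image q, fun g hg => ?_⟩
  · exact IsFreeGroup.ofMulEquiv (G := FreeGroup Empty) MulEquiv.ofUnique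
  · have h1 : {p : G ⧸ (⊥ : Subgroup G) | p ∈ Φ.image q ∧ g • p ∉ Φ.image q} =
        q '' {x | x ∈ Φ ∧ g * x ∉ Φ} := by
      ext p
      constructor
      · rintro ⟨h2, h3⟩
        obtain ⟨x, hx, rfl⟩ := Finset.mem_image.1 h2
        refine ⟨x, ⟨hx, fun h4 => h3 ?_⟩, rfl⟩
        exact Finset.mem_image.2 ⟨g * x, h4, rfl⟩
      · rintro ⟨x, ⟨h2, h3⟩, rfl⟩
        refine ⟨Finset.mem_image_of_mem q h2, fun h4 => h3 ?_⟩
        obtain ⟨y, hy, h5⟩ := Finset.mem_image.1 h4
        have h6 : y = g * x := hq h5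
        rw [← h6]
        exact hy
    rw [h1, Set.ncard_image_of_injective _ hq, Finset.card_image_of_injective _ hq]
    exact hT g hg

/-- Let `N ⊆ B ⊆ A` be finite von Neumann algebras, `A` with a faithful normal tracial state and
Connes embeddable, graded by a `FreeFolner` group `G` (for instance free or amenable) with `N` as
component of degree `1`. Suppose that `B` is graded (`E_B (V g) ⊆ V g` for all `g`) or that
`N' ∩ A ⊆ N`. Let `M` be an amalgamated free power of `A` over `B` (any index set `J`; `J = Fin 2`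
is `∗_B A`). Then `M` is Connes embeddable. -/
theorem result {H : Type u} [NormedAddCommGroup H] [InnerProductSpace ℂ H] [CompleteSpace H]
    (A : TracialVN H) (N B : VonNeumannAlgebra H) (hNB : ∀ x ∈ N, x ∈ B) (hBA : ∀ x ∈ B, x ∈ A.N)
    (hA : ConnesEmbeddable A) {G : Type y} [Group G] (hG : FreeFolner G)
    (V : G → Submodule ℂ (H →L[ℂ] H)) (hV : IsGraded A N V)
    (hB : (∀ g, ∀ a ∈ V g, ∃ b ∈ V g, b ∈ B ∧ Orthogonal A B (a - b)) ∨
      ∀ a ∈ A.N, (∀ x ∈ N, a * x = x * a) → a ∈ N)
    {K : Type v} [NormedAddCommGroup K] [InnerProductSpace ℂ K] [CompleteSpace K]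
    (M : TracialVN K) {J : Type w} (ι : J → (H →L[ℂ] H) → (K →L[ℂ] K))
    (hι : IsAmalgamatedPower A B M ι) :
    ConnesEmbeddable M := by
  let V' : G → Submodule ℂ (Alg A.N) := fun g =>
    { carrier := {a | (a : H →L[ℂ] H) ∈ V g}
      add_mem' := fun {a b} ha hb => (V g).add_mem ha hb
      zero_mem' := (V g).zero_mem
      smul_mem' := fun z a ha => (V g).smul_mem z ha }
  have hV' : IsGrad A.N N (stLin A) V' :=
    { one_iff := fun a => hV.one_iff a
      mul := fun g h a b ha hb => hV.mul_mem g h a ha b hb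
      star_mem := fun g a ha => hV.star_mem g a ha
      trace := fun g a hg ha => hV.trace g hg a ha
      gen := by
        refine hV.generates.trans (Set.centralizer_subset (Set.centralizer_subset ?_))
        rintro a ⟨g, ha⟩
        exact ⟨g, ⟨a, hV.mem g a ha⟩, ha, rfl⟩ }
  have hB' : ∀ g, ∀ a ∈ V' g, ∃ b ∈ V' g, In B b ∧ Perp A.N B (stLin A) (a - b) := by
    rcases hB with hgr | hirr
    · intro g a ha
      obtain ⟨b, hb, hbB, hbp⟩ := hgr g a ha
      exact ⟨⟨b, hV.mem g b hb⟩, hb, hbB, (perp_iff hBA _).1 hbp⟩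
    · refine graded_of_irr hBA hNB (stLin_isTrace A) hV' fun a ha => hirr a a.2 fun x hx => ?_
      exact congrArg Subtype.val (ha ⟨x, hBA x (hNB x hx)⟩ hx)
  exact (connesEmb_iff M).2 (connesEmb_of_grad hBA hNB (stLin_isTrace A)
    ((connesEmb_iff A).1 hA) hV' hG hB' (stLin_isTrace M) (isFreePower_of_st hBA hι))

end Pool.Agent.Results.MP_f0269b_an.GradedAlgebras
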